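import Pool.Agent.J4H78.HG.Stm
import Pool.Agent.J4H19.GP.Odd

/-!
# Project HG, part ODH (from `GP.S_ODD`) and part NRM: Hecke characters whose square is a power of the norm
-/

set_option autoImplicit false

open NumberField Complex Filter Topology
open Pool.Agent.J4H78.GP (QD)
open Pool.Agent.J4H78.HG

namespace Pool.Agent.J4H19.HG

/-- a sequence of multiples of `2 π` which tends to zero vanishes eventually -/
lemma small {f : ℕ → ℝ} (hf : Tendsto f atTop (𝓝 0)) (hk : ∀ᶠ n in atTop, ∃ k : ℤ, f n = k * (2 * Real.pi)) :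
    ∀ᶠ n in atTop, f n = 0 := by
  have h1 : ∀ᶠ n in atTop, |f n| < 2 * Real.pi := by
    have h2 : ∀ᶠ n in atTop, dist (f n) 0 < 2 * Real.pi :=
      (tendsto_order.1 (tendsto_iff_dist_tendsto_zero.1 hf)).2 _ (by positivity)
    filter_upwards [h2] with n hn
    rwa [Real.dist_eq, sub_zero] at hn
  filter_upwards [h1, hk] with n h1 h2
  obtain ⟨k, hk⟩ := h2
  rw [hk, abs_mul, abs_of_pos (by positivity : (0 : ℝ) < 2 * Real.pi)] at h1
  have h3 : |(k : ℝ)| < 1 := by
    by_contra h
    push Not at h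
    have : 1 * (2 * Real.pi) ≤ |(k : ℝ)| * (2 * Real.pi) :=
      mul_le_mul_of_nonneg_right h (by positivity)
    linarith
  have h4 : k = 0 := by
    have : |k| < 1 := by exact_mod_cast h3
    exact Int.abs_lt_one_iff.1 this
  rw [hk, h4]
  simp

variable {K : Type} [Field K] [NumberField K]

/-- the additive form: all multiples of `2 π` -/
def Per (D : InfinitePlace K → ℝ) : Prop :=
  ∀ x : 𝓞 K, x ≠ 0 → ∃ k : ℤ, ∑ w, D w * Real.log (w (x : K)) = k * (2 * Real.pi)

lemma log_quot {a : ℝ} : Tendsto (fun n : ℕ => Real.log (|(n : ℝ) + a| ) - Real.log n) atTop (𝓝 0) := by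
  have h1 : Tendsto (fun n : ℕ => 1 + a / (n : ℝ)) atTop (𝓝 1) := by
    have := (tendsto_const_div_atTop_nhds_zero_nat a).const_add (1 : ℝ)
    simpa using this
  have h2 : Tendsto (fun n : ℕ => Real.log (1 + a / (n : ℝ))) atTop (𝓝 0) := by
    have := (Real.continuousAt_log (one_ne_zero)).tendsto.comp h1
    simpa [Real.log_one, Function.comp_def] using this
  refine h2.congr' ?_
  have h3 : ∀ᶠ n : ℕ in atTop, |a| < (n : ℝ) := (tendsto_natCast_atTop_atTop).eventually_gt_atTop |a|
  filter_upwards [h3] with n hn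
  have hn0 : (0 : ℝ) < n := lt_of_le_of_lt (abs_nonneg a) hn
  have h4 : 0 < (n : ℝ) + a := by
    have := neg_abs_le a
    linarith
  rw [abs_of_pos h4, ← Real.log_div h4.ne' hn0.ne']
  congr 1
  field_simp

lemma sum_zero {D : InfinitePlace K → ℝ} (h : Per D) : ∑ w, D w = 0 := by
  have h1 : ∀ n : ℕ, n ≠ 0 → ∃ k : ℤ, (∑ w, D w) * Real.log n = k * (2 * Real.pi) := by
    intro n hn
    obtain ⟨k, hk⟩ := h (n : 𝓞 K) (by exact_mod_cast hn)
    refine ⟨k, ?_⟩
    rw [← hk, Finset.sum_mul]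
    refine Finset.sum_congr rfl fun w _ => ?_
    congr 2
    have : (((n : 𝓞 K) : K)) = (n : K) := by simp
    rw [this, ← InfinitePlace.norm_embedding_eq, map_natCast]
    simp
  have h2 : Tendsto (fun n : ℕ => (∑ w, D w) * (Real.log (|(n : ℝ) + 1|) - Real.log n)) atTop (𝓝 0) := by
    have := (log_quot (a := 1)).const_mul (∑ w, D w)
    simpa using this
  have h3 := small h2 (by
    filter_upwards [eventually_ge_atTop 1] with n hn
    obtain ⟨k, hk⟩ := h1 n (by omega)
    obtain ⟨k', hk'⟩ := h1 (n + 1) (by omega)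
    refine ⟨k' - k, ?_⟩
    rw [abs_of_pos (by positivity)]
    push_cast at hk' ⊢
    rw [mul_sub, hk, hk']
    ring)
  obtain ⟨n, hn, hn1⟩ := (h3.and (eventually_ge_atTop 1)).exists
  rcases mul_eq_zero.1 hn with h4 | h4
  · exact h4
  · exfalso
    have hn0 : (0 : ℝ) < n := by exact_mod_cast hn1
    have : Real.log (n : ℝ) < Real.log |(n : ℝ) + 1| := by
      rw [abs_of_pos (by positivity)]
      exact Real.log_lt_log hn0 (by linarith)
    linarith

lemma per_zero {p : ℕ} (hp : p.Prime) (hK : QD p K) {D : InfinitePlace K → ℝ} (h : Per D) : ∀ w, D w = 0 := by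
  classical
  obtain ⟨E⟩ := Pool.Agent.J4H19.GP.exists_dat hp hK
  have hgal := E.gal
  intro w
  have hs0 := sum_zero h
  -- all places
  have hpl : ∀ w' : InfinitePlace K, w' = w ∨ w' = E.σ • w := by
    intro w'
    obtain ⟨τ, hτ⟩ := InfinitePlace.exists_smul_eq_of_comap_eq (k := ℚ) (K := K) (w := w) (w' := w')
      (Subsingleton.elim _ _)
    rcases E.all τ with h1 | h1
    · left
      rw [← hτ, h1, one_smul]
    · right
      rw [← hτ, h1]
  by_cases hc : E.σ • w = w
  · have huniv : (Finset.univ : Finset (InfinitePlace K)) = {w} := by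
      ext w'
      simp only [Finset.mem_univ, Finset.mem_singleton, true_iff]
      rcases hpl w' with h1 | h1
      · exact h1
      · rw [h1, hc]
    rw [huniv, Finset.sum_singleton] at hs0
    exact hs0
  · have huniv : (Finset.univ : Finset (InfinitePlace K)) = {w, E.σ • w} := by
      ext w'
      simpa using hpl w'
    rw [huniv, Finset.sum_pair (Ne.symm hc)] at hs0
    -- the value of `s`
    set s : K := (E.s : K) with hs
    have hs2 : s ^ 2 = (p : K) := by
      have := congrArg (fun x : 𝓞 K => (x : K)) E.hs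
      simpa using this
    have hσσ : E.σ * E.σ = 1 := by
      rcases E.all (E.σ * E.σ) with h | h
      · exact h
      · exact absurd (mul_left_cancel (a := E.σ) (by rw [mul_one]; exact h)) E.hne.symm
    have hσs : E.σ s = -s := by
      have := congrArg (fun x : 𝓞 K => (x : K)) E.hσs
      simpa using this
    have hσs' : E.σ.symm s = -s := by
      apply E.σ.injective
      rw [AlgEquiv.apply_symm_apply, map_neg, hσs, neg_neg]
    -- real value
    obtain ⟨r, hr0, hr⟩ : ∃ r : ℝ, r ≠ 0 ∧ w.embedding s = (r : ℂ) := by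
      have h1 : (w.embedding s) ^ 2 = (((Real.sqrt p : ℝ) : ℂ)) ^ 2 := by
        rw [← map_pow, hs2, map_natCast, ← Complex.ofReal_pow, Real.sq_sqrt (by positivity)]
        simp
      have hp0 : Real.sqrt p ≠ 0 := by
        have : (0 : ℝ) < p := by exact_mod_cast hp.pos
        exact (Real.sqrt_pos.2 this).ne'
      rcases sq_eq_sq_iff_eq_or_eq_neg.1 h1 with h2 | h2
      · exact ⟨Real.sqrt p, hp0, h2⟩
      · exact ⟨-Real.sqrt p, neg_ne_zero.2 hp0, by rw [h2]; simp⟩
    have hw1 : ∀ n : ℕ, w ((n : K) + s) = |(n : ℝ) + r| := by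
      intro n
      rw [← InfinitePlace.norm_embedding_eq, map_add, map_natCast, hr]
      rw [← Complex.ofReal_natCast, ← Complex.ofReal_add, Complex.norm_real, Real.norm_eq_abs]
    have hw2 : ∀ n : ℕ, (E.σ • w) ((n : K) + s) = |(n : ℝ) + -r| := by
      intro n
      rw [InfinitePlace.smul_apply, map_add, map_natCast, hσs', ← InfinitePlace.norm_embedding_eq, map_add,
        map_natCast, map_neg, hr]
      rw [← Complex.ofReal_natCast, ← Complex.ofReal_neg, ← Complex.ofReal_add, Complex.norm_real,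
        Real.norm_eq_abs]
    have hD : D (E.σ • w) = - D w := by linarith
    have h2 : Tendsto (fun n : ℕ => D w * ((Real.log (|(n : ℝ) + r|) - Real.log n) -
        (Real.log (|(n : ℝ) + -r|) - Real.log n))) atTop (𝓝 0) := by
      have := ((log_quot (a := r)).sub (log_quot (a := -r))).const_mul (D w)
      simpa using this
    have hne : ∀ᶠ n : ℕ in atTop, |r| < (n : ℝ) := (tendsto_natCast_atTop_atTop).eventually_gt_atTop |r|
    have h3 := small h2 (by
      filter_upwards [hne] with n hn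
      have hx : (n : 𝓞 K) + E.s ≠ 0 := by
        intro h0
        have h1 : w ((n : K) + s) = 0 := by
          have : ((((n : 𝓞 K) + E.s : 𝓞 K)) : K) = 0 := by rw [h0]; simp
          have h2 : (n : K) + s = 0 := by simpa [hs] using this
          rw [h2, map_zero]
        rw [hw1, abs_eq_zero] at h1
        have := neg_abs_le r
        linarith
      obtain ⟨k, hk⟩ := h _ hx
      refine ⟨k, ?_⟩
      rw [← hk, huniv, Finset.sum_pair (Ne.symm hc)]
      have hcast : ((((n : 𝓞 K) + E.s : 𝓞 K)) : K) = (n : K) + s := by simp [hs]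
      rw [hcast, hw1, hw2, hD]
      ring)
    obtain ⟨n, hn, hn1⟩ := (h3.and hne).exists
    rcases mul_eq_zero.1 hn with h4 | h4
    · exact h4
    · exfalso
      have ha : 0 < (n : ℝ) + r := by
        have := neg_abs_le r
        linarith
      have hb : 0 < (n : ℝ) + -r := by
        have := le_abs_self r
        linarith
      have h5 : Real.log ((n : ℝ) + r) = Real.log ((n : ℝ) + -r) := by
        rw [abs_of_pos ha, abs_of_pos hb] at h4
        linarith
      have h6 := Real.log_injOn_pos ha hb h5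
      exact hr0 (by linarith)

lemma log_norm {x : 𝓞 K} (hx : x ≠ 0) :
    Real.log (Ideal.absNorm (Ideal.span {x})) = ∑ w : InfinitePlace K, (w.mult : ℝ) * Real.log (w (x : K)) := by
  have hx' : (x : K) ≠ 0 := by
    simpa using hx
  have h1 : ((Ideal.absNorm (Ideal.span {x}) : ℕ) : ℝ) = ∏ w : InfinitePlace K, w (x : K) ^ w.mult := by
    rw [InfinitePlace.prod_eq_abs_norm, Ideal.absNorm_span_singleton]
    have h2 : Algebra.norm ℚ (x : K) = ((Algebra.norm ℤ x : ℤ) : ℚ) := by
      have := Algebra.coe_norm_int x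
      rw [this]
    rw [h2]
    rw [Nat.cast_natAbs]
    push_cast
    rfl
  rw [h1, Real.log_prod]
  · refine Finset.sum_congr rfl fun w _ => ?_
    rw [Real.log_pow]
  · intro w _
    exact pow_ne_zero _ ((InfinitePlace.pos_iff.2 hx').ne')

lemma pw_eq (μ : InfinitePlace K → ℝ) (x : K) :
    pw μ x = Complex.exp (((∑ w, μ w * Real.log (w x) : ℝ) : ℂ) * I) := by
  unfold pw
  rw [← Complex.exp_sum]
  congr 1
  push_cast
  rw [Finset.sum_mul]

theorem t_NRM : S_NRM := by
  intro K _ _ μ η hη 𝔞 h𝔞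
  have hcl : ((𝔞 ^ Nat.card (ClassGroup (𝓞 K))) : Ideal (𝓞 K)).IsPrincipal := by
    have hmem : 𝔞 ∈ nonZeroDivisors (Ideal (𝓞 K)) := mem_nonZeroDivisors_of_ne_zero h𝔞
    rw [← ClassGroup.mk0_eq_one_iff (pow_mem hmem _)]
    have : (⟨𝔞 ^ Nat.card (ClassGroup (𝓞 K)), pow_mem hmem _⟩ : nonZeroDivisors (Ideal (𝓞 K))) =
        ⟨𝔞, hmem⟩ ^ Nat.card (ClassGroup (𝓞 K)) := rfl
    rw [this, map_pow, pow_card_eq_one']
  obtain ⟨x, hx⟩ := hcl
  have hx0 : x ≠ 0 := by
    intro h0
    rw [h0, Submodule.span_zero_singleton] at hx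
    exact h𝔞 (pow_eq_zero_iff (Nat.card_pos.ne') |>.1 hx)
  have h1 : η 𝔞 ^ Nat.card (ClassGroup (𝓞 K)) = pw μ (x : K) := by
    rw [← map_pow, hx, Ideal.submodule_span_eq, hη x hx0]
  have h2 : ‖η 𝔞‖ ^ Nat.card (ClassGroup (𝓞 K)) = 1 := by
    rw [← norm_pow, h1, pw_eq, Complex.norm_exp_ofReal_mul_I]
  exact (pow_eq_one_iff_of_nonneg (norm_nonneg _) (Nat.card_pos.ne')).1 h2

theorem t_ODH : S_ODH := by
  intro p K _ _ hp hK μ ψ hψ hN
  by_contra hn
  unfold NotNorm2 at hn
  push Not at hn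
  obtain ⟨t, ht⟩ := hn
  -- the type
  have hper : Per (fun w : InfinitePlace K => 2 * μ w - t * w.mult) := by
    intro x hx
    have hsp : Ideal.span {x} ≠ ⊥ := by
      rwa [Ne, Ideal.span_singleton_eq_bot]
    have h1 := ht _ hsp
    rw [hψ x hx, pw_eq, ← Complex.exp_nat_mul, log_norm hx] at h1
    have h2 : Complex.exp (((∑ w : InfinitePlace K, (2 * μ w - t * w.mult) * Real.log (w (x : K)) : ℝ) : ℂ) * I) = 1 := by
      have h3 : ((∑ w : InfinitePlace K, (2 * μ w - t * w.mult) * Real.log (w (x : K)) : ℝ) : ℂ) * I =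
          ((2 : ℕ) : ℂ) * (((∑ w, μ w * Real.log (w (x : K)) : ℝ) : ℂ) * I) -
          ((t * ∑ w : InfinitePlace K, (w.mult : ℝ) * Real.log (w (x : K)) : ℝ) : ℂ) * I := by
        have h4 : (∑ w : InfinitePlace K, (2 * μ w - t * w.mult) * Real.log (w (x : K))) =
            2 * (∑ w, μ w * Real.log (w (x : K))) - t * ∑ w : InfinitePlace K, (w.mult : ℝ) * Real.log (w (x : K)) := by
          rw [Finset.mul_sum, Finset.mul_sum, ← Finset.sum_sub_distrib]
          refine Finset.sum_congr rfl fun w _ => ?_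
          ring
        rw [h4]
        push_cast
        ring
      rw [h3, Complex.exp_sub, h1, div_self (Complex.exp_ne_zero _)]
    obtain ⟨k, hk⟩ := Complex.exp_eq_one_iff.1 h2
    refine ⟨k, ?_⟩
    have h5 : ((∑ w : InfinitePlace K, (2 * μ w - t * w.mult) * Real.log (w (x : K)) : ℝ) : ℂ) * I =
        ((k * (2 * Real.pi) : ℝ) : ℂ) * I := by
      rw [hk]
      push_cast
      ring
    exact_mod_cast mul_right_cancel₀ Complex.I_ne_zero h5
  have hD := per_zero hp hK hper
  obtain ⟨𝔞, h𝔞, hne⟩ := hN (t / 2)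
  apply hne
  -- the class number
  have hodd := Pool.Agent.J4H19.GP.t_ODD p K hp hK
  obtain ⟨m, hm⟩ := hodd
  have hcl : ((𝔞 ^ Nat.card (ClassGroup (𝓞 K))) : Ideal (𝓞 K)).IsPrincipal := by
    have hmem : 𝔞 ∈ nonZeroDivisors (Ideal (𝓞 K)) := mem_nonZeroDivisors_of_ne_zero h𝔞
    rw [← ClassGroup.mk0_eq_one_iff (pow_mem hmem _)]
    have : (⟨𝔞 ^ Nat.card (ClassGroup (𝓞 K)), pow_mem hmem _⟩ : nonZeroDivisors (Ideal (𝓞 K))) =
        ⟨𝔞, hmem⟩ ^ Nat.card (ClassGroup (𝓞 K)) := rfl
    rw [this, map_pow, pow_card_eq_one']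
  obtain ⟨x, hx⟩ := hcl
  rw [Ideal.submodule_span_eq] at hx
  have hx0 : x ≠ 0 := by
    intro h0
    rw [h0] at hx
    simp only [Ideal.span_singleton_eq_bot.2 rfl] at hx
    exact h𝔞 (pow_eq_zero_iff (Nat.card_pos.ne') |>.1 hx)
  set N : ℝ := Real.log (Ideal.absNorm 𝔞) with hNdef
  set z : ℂ := ψ 𝔞 * Complex.exp (-(((t / 2 * N : ℝ) : ℂ) * I)) with hz
  have ht' : ψ 𝔞 ^ 2 = Complex.exp (((t * N : ℝ) : ℂ) * I) := ht 𝔞 h𝔞
  have hz2 : z ^ 2 = 1 := by
    rw [hz, mul_pow, ht', ← Complex.exp_nat_mul, ← Complex.exp_add]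
    rw [← Complex.exp_zero]
    congr 1
    push_cast
    ring
  have hzh : z ^ Nat.card (ClassGroup (𝓞 K)) = 1 := by
    have h1 : ψ 𝔞 ^ Nat.card (ClassGroup (𝓞 K)) = pw μ (x : K) := by
      rw [← map_pow, hx, hψ x hx0]
    have h2 : (Nat.card (ClassGroup (𝓞 K)) : ℝ) * N =
        ∑ w : InfinitePlace K, (w.mult : ℝ) * Real.log (w (x : K)) := by
      rw [← log_norm hx0, ← hx, map_pow]
      push_cast
      rw [Real.log_pow]
    rw [hz, mul_pow, h1, pw_eq, ← Complex.exp_nat_mul, ← Complex.exp_add, ← Complex.exp_zero]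
    congr 1
    have h3 : (∑ w, μ w * Real.log (w (x : K))) = t / 2 * (Nat.card (ClassGroup (𝓞 K)) * N) := by
      rw [h2, Finset.mul_sum]
      refine Finset.sum_congr rfl fun w _ => ?_
      have := hD w
      have h4 : μ w = t / 2 * w.mult := by
        linarith
      rw [h4]
      ring
    rw [h3]
    push_cast
    ring
  have hz1 : z = 1 := by
    rw [hm, pow_succ, pow_mul, hz2, one_pow, one_mul] at hzh
    exact hzh
  rw [hz] at hz1
  have h6 : ψ 𝔞 = Complex.exp (((t / 2 * N : ℝ) : ℂ) * I) := by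
    rw [Complex.exp_neg, mul_inv_eq_one₀ (Complex.exp_ne_zero _)] at hz1
    exact hz1
  exact h6

end Pool.Agent.J4H19.HG
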